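import Pool.Agent.K4H85.CQ.Over

/-!
# The complex Abel-Jacobi maps of the products `X ^ m × Z`: definitions
-/

set_option autoImplicit false

namespace Pool.Agent.K4H85.CQ

open Matrix Pool.Agent.K4H97.QP

noncomputable section

universe u w

variable {X : ChowPowers.{u} ℚ}

/-- The complex cohomology of `X ^ m × Z`: it has the basis `(Fin m → X.ι) × Z.ι`. -/
abbrev HC (Z : ChowOver.{u, w} X) (m : ℕ) : Type := (Fin m → X.ι) × Z.ι → ℂ

/-- The complex conjugate of a complex class. -/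
def conj {E : Type} (v : E → ℂ) : E → ℂ := fun s => starRingEnd ℂ (v s)

/-- The action of the correspondence `x × Δ_Z` on the complex cohomology. -/
def on {Z : ChowOver.{u, w} X} {a c : ℕ} (x : X.Corr a c) (v : HC Z a) : HC Z c :=
  (Z.on x).map (algebraMap ℚ ℂ) *ᵥ v

/-- The class `v` is in the odd part `⊕ H ^ (2 i - 1)(X ^ m × Z, ℂ)` of the cohomology. -/
def IsOdd {Z : ChowOver.{u, w} X} (m : ℕ) (v : HC Z m) : Prop :=
  ∀ s, v s ≠ 0 → Odd (∑ i, X.deg (s.1 i) + Z.deg s.2)

/-- The cycle `z` on `X ^ m × Z` is homologically trivial. -/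
def HomTriv {Z : ChowOver.{u, w} X} {m : ℕ} (z : Z.CH m) : Prop := Z.cl z = 0

/-- The data of Griffiths's Abel-Jacobi maps of the products `X ^ m × Z`, in all codimensions `i` at
once. -/
structure HodgeAJ (Z : ChowOver.{u, w} X) where
  /-- the sum over all `i` of the steps `F ^ i` of the Hodge filtrations on the groups
  `H ^ (2 i - 1)(X ^ m × Z, ℂ)` -/
  F : ∀ m : ℕ, Submodule ℂ (HC Z m)
  /-- for a homologically trivial cycle `z` on `X ^ m × Z` an element of the odd cohomology with complex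
  coefficients, which represents the class of `z` in the sum of the intermediate Jacobians up to
  torsion, the quotients of `H ^ (2 i - 1)(X ^ m × Z, ℂ)` by `F ^ i + H ^ (2 i - 1)(X ^ m × Z, ℚ)` -/
  aj : ∀ m : ℕ, Z.CH m → HC Z m

namespace HodgeAJ

variable {Z : ChowOver.{u, w} X} (A : HodgeAJ Z)

/-- The class `v` is in the Hodge filtration. -/
def InF (m : ℕ) (v : HC Z m) : Prop := v ∈ A.F m

/-- The classes `v` and `w` are equal in the sum of the intermediate Jacobians up to torsion: `v - w` is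
the sum of an element `f` of the Hodge filtration and of a rational class `r`. -/
def Same (m : ℕ) (v w : HC Z m) : Prop :=
  ∃ (f : HC Z m) (r : (Fin m → X.ι) × Z.ι → ℚ), A.InF m f ∧ ∀ s, v s = w s + (f s + r s)

/-- The properties of the Abel-Jacobi maps: Hodge theory (the odd cohomology is the direct sum of `F` and
of its complex conjugate, and correspondences preserve `F`), linearity, and compatibility with
correspondences. -/
structure IsAJ : Prop where
  odd : ∀ (m : ℕ) (f : HC Z m), A.InF m f → IsOdd m f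
  disjoint : ∀ (m : ℕ) (f : HC Z m), A.InF m f → A.InF m (conj f) → ∀ s, f s = 0
  decomp : ∀ (m : ℕ) (v : HC Z m), IsOdd m v →
    ∃ f g : HC Z m, A.InF m f ∧ A.InF m g ∧ ∀ s, v s = f s + conj g s
  preserves : ∀ (a c : ℕ) (x : X.Corr a c) (f : HC Z a), A.InF a f → A.InF c (on x f)
  aj_odd : ∀ (m : ℕ) (z : Z.CH m), HomTriv z → IsOdd m (A.aj m z)
  linear : ∀ (m : ℕ) (r : ℚ) (z z' : Z.CH m), HomTriv z → HomTriv z' →
    A.Same m (A.aj m (z + r • z')) fun s => A.aj m z s + r * A.aj m z' s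
  act : ∀ (a c : ℕ) (x : X.Corr a c) (z : Z.CH a), HomTriv z →
    A.Same c (A.aj c (Z.act x z)) (on x (A.aj a z))

/-- The Abel-Jacobi class of the cycle `z` on `X ^ m × Z` is zero up to torsion. -/
def IsZero (m : ℕ) (z : Z.CH m) : Prop := A.Same m (A.aj m z) fun _ => 0

/-- The complex Abel-Jacobi maps are injective up to torsion on the homologically trivial cycles on
**all** the varieties `X ^ m × Z`, `m ≥ 0`, in all codimensions. -/
def Injective : Prop :=
  ∀ (m : ℕ) (z : Z.CH m), HomTriv z → A.IsZero m z → z = 0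

variable {A}

theorem Same.trans {m : ℕ} {v w y : HC Z m} (h : A.Same m v w) (h' : A.Same m w y) :
    A.Same m v y := by
  obtain ⟨f, r, hf, h⟩ := h
  obtain ⟨g, s, hg, h'⟩ := h'
  refine ⟨f + g, r + s, (A.F m).add_mem hf hg, fun t => ?_⟩
  rw [h, h', Pi.add_apply, Pi.add_apply]
  push_cast
  ring

theorem isZero_add_smul (hA : A.IsAJ) {m : ℕ} {z z' : Z.CH m} (hz : HomTriv z) (hz' : HomTriv z')
    (r : ℚ) (h : A.IsZero m z) (h' : A.IsZero m z') : A.IsZero m (z + r • z') := by
  refine (hA.linear m r z z' hz hz').trans ?_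
  obtain ⟨f, s, hf, h⟩ := h
  obtain ⟨g, t, hg, h'⟩ := h'
  refine ⟨f + (r : ℂ) • g, s + r • t, (A.F m).add_mem hf ((A.F m).smul_mem _ hg), fun e => ?_⟩
  beta_reduce
  rw [h, h', Pi.add_apply, Pi.add_apply, Pi.smul_apply, Pi.smul_apply, smul_eq_mul, smul_eq_mul]
  push_cast
  ring

theorem isZero_zero (hA : A.IsAJ) (m : ℕ) (h0 : HomTriv (0 : Z.CH m)) :
    A.IsZero m (0 : Z.CH m) := by
  obtain ⟨f, s, hf, h⟩ := hA.linear m (-1) 0 0 h0 h0
  refine ⟨f, s, hf, fun e => ?_⟩
  have h1 := h e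
  rw [smul_zero, add_zero] at h1
  rw [h1]
  push_cast
  ring

theorem same_on (hA : A.IsAJ) {a c : ℕ} (x : X.Corr a c) {v : HC Z a}
    (h : A.Same a v fun _ => 0) : A.Same c (on x v) fun _ => 0 := by
  obtain ⟨f, r, hf, h⟩ := h
  refine ⟨on x f, Z.on x *ᵥ r, hA.preserves a c x f hf, fun s => ?_⟩
  have h1 : v = f + fun e => (r e : ℂ) := by
    funext e
    rw [h, zero_add]
    rfl
  rw [h1, zero_add]
  unfold on
  rw [Matrix.mulVec_add, Pi.add_apply]
  congr 1
  simp only [Matrix.mulVec, dotProduct, Matrix.map_apply, eq_ratCast]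
  push_cast
  rfl

theorem isZero_act (hA : A.IsAJ) {a c : ℕ} (x : X.Corr a c) {z : Z.CH a} (hz : HomTriv z)
    (h : A.IsZero a z) : A.IsZero c (Z.act x z) :=
  (hA.act a c x z hz).trans (same_on hA x h)

/-- The kernel of the Abel-Jacobi maps on the homologically trivial cycles on `X ^ m × Z`, of all
codimensions. -/
def kernel (hZ : Z.IsChow) (hA : A.IsAJ) (m : ℕ) : Submodule ℚ (Z.CH m) where
  carrier := {z | HomTriv z ∧ A.IsZero m z}
  zero_mem' := ⟨hZ.cl_zero m, isZero_zero hA m (hZ.cl_zero m)⟩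
  add_mem' := by
    rintro z z' ⟨h1, h2⟩ ⟨h3, h4⟩
    have h5 := isZero_add_smul hA h1 h3 1 h2 h4
    rw [one_smul] at h5
    refine ⟨?_, h5⟩
    unfold HomTriv at *
    rw [hZ.cl_add, h1, h3, add_zero]
  smul_mem' := by
    rintro r z ⟨h1, h2⟩
    have h5 := isZero_add_smul hA (hZ.cl_zero m) h1 r (isZero_zero hA m (hZ.cl_zero m)) h2
    rw [zero_add] at h5
    refine ⟨?_, h5⟩
    unfold HomTriv at *
    rw [hZ.cl_smul, h1, smul_zero]

/-- The dimension of the kernel `N m` of the Abel-Jacobi maps on `CH(X ^ m × Z)`, a finite or infinite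
cardinal number. -/
def kernelDim (hZ : Z.IsChow) (hA : A.IsAJ) (m : ℕ) : Cardinal.{w} :=
  Module.rank ℚ (kernel hZ hA m)

theorem kernel_stable (hZ : Z.IsChow) (hA : A.IsAJ) {a c : ℕ} (x : X.Corr a c) {z : Z.CH a}
    (hz : z ∈ kernel hZ hA a) : Z.act x z ∈ kernel hZ hA c := by
  obtain ⟨h1, h2⟩ := hz
  refine ⟨?_, isZero_act hA x h1 h2⟩
  unfold HomTriv at *
  rw [hZ.cl_act, h1, Matrix.mulVec_zero]

end HodgeAJ

end

end Pool.Agent.K4H85.CQ
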