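import Pool.Agent.K4H97.QP.Defs

/-!
# The Chow groups of the products `X ^ m × Z`

`X` and `Z` are smooth projective varieties. The correspondences between the powers of `X` act on the
Chow groups of the products `X ^ m × Z`. The point is a possible choice of `Z`; for `m = 0` one gets
the Chow group of `Z`.
-/

set_option autoImplicit false

namespace Pool.Agent.K4H85.CQ

open Matrix Pool.Agent.K4H97.QP
open scoped Kronecker

noncomputable section

universe u w

variable {k : Type} [Field k]

/-- The data of the Chow groups of the products `X ^ m × Z`, `Z` a second smooth projective variety,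
with coefficients in `k`, and of the action of the correspondences between the powers of `X`: the
correspondence `x` from `X ^ a` to `X ^ c` acts by the correspondence `x × Δ_Z` from `X ^ a × Z` to
`X ^ c × Z`. -/
structure ChowOver (X : ChowPowers.{u} k) where
  /-- a homogeneous basis of the cohomology `H(Z)` -/
  ι : Type
  fin : Fintype ι
  dec : DecidableEq ι
  /-- the degrees of the elements of the basis -/
  deg : ι → ℕ
  /-- `CH m` is the Chow group `CH(X ^ m × Z)` (of all codimensions) with coefficients in `k` -/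
  CH : ℕ → Type w
  addCommGroup : ∀ m, AddCommGroup (CH m)
  module : ∀ m, Module k (CH m)
  /-- the action of the correspondences -/
  act : ∀ {a c : ℕ}, X.Corr a c → CH a → CH c
  /-- the class of a cycle on `X ^ m × Z` in `H(X ^ m × Z) = H(X) ⊗ ... ⊗ H(X) ⊗ H(Z)` -/
  cl : ∀ {m : ℕ}, CH m → (Fin m → X.ι) × ι → k

attribute [instance] ChowOver.fin ChowOver.dec ChowOver.addCommGroup ChowOver.module

namespace ChowOver

variable {X : ChowPowers.{u} k} (Z : ChowOver.{u, w} X)

/-- The map `H(X ^ a × Z) → H(X ^ c × Z)` induced by the class of the correspondence `x × Δ_Z`. -/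
def on {a c : ℕ} (x : X.Corr a c) : Matrix ((Fin c → X.ι) × Z.ι) ((Fin a → X.ι) × Z.ι) k :=
  X.cl x ⊗ₖ (1 : Matrix Z.ι Z.ι k)

/-- The action and the classes are linear. -/
structure IsLinear : Prop where
  left : ∀ (a c : ℕ) (z : Z.CH a), IsLinearMap k fun x : X.Corr a c => Z.act x z
  right : ∀ (a c : ℕ) (x : X.Corr a c), IsLinearMap k fun z : Z.CH a => Z.act x z
  classes : ∀ m : ℕ, IsLinearMap k fun z : Z.CH m => Z.cl z

/-- The formal properties of the action of correspondences, known for all smooth projective
varieties. -/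
structure IsChow : Prop where
  linear : Z.IsLinear
  act_comp : ∀ {a b c : ℕ} (x : X.Corr b c) (y : X.Corr a b) (z : Z.CH a),
    Z.act (X.comp x y) z = Z.act x (Z.act y z)
  act_diag : ∀ (a : ℕ) (z : Z.CH a), Z.act (X.diag a) z = z
  cl_act : ∀ {a c : ℕ} (x : X.Corr a c) (z : Z.CH a), Z.cl (Z.act x z) = Z.on x *ᵥ Z.cl z

variable {Z}

theorem IsChow.cl_zero (hZ : Z.IsChow) (m : ℕ) : Z.cl (0 : Z.CH m) = 0 :=
  (hZ.linear.classes m).map_zero

theorem IsChow.cl_add (hZ : Z.IsChow) {m : ℕ} (z z' : Z.CH m) :
    Z.cl (z + z') = Z.cl z + Z.cl z' := (hZ.linear.classes m).map_add z z'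

theorem IsChow.cl_smul (hZ : Z.IsChow) {m : ℕ} (r : k) (z : Z.CH m) :
    Z.cl (r • z) = r • Z.cl z := (hZ.linear.classes m).map_smul r z

end ChowOver

end

end Pool.Agent.K4H85.CQ
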