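import Pool.Agent.K4H85.CQ.Over
import Pool.Agent.K4H97.QP.Bridge

/-!
# The Chow groups of the products `X ^ m × Z` as a module over the correspondences
-/

set_option autoImplicit false

namespace Pool.Agent.K4H85.CQ

open Pool.Agent.K4H97.QP

noncomputable section

universe u w

variable {k : Type} [Field k] {X : ChowPowers.{u} k} {Z : ChowOver.{u, w} X}

/-- The Chow groups of the products `X ^ m × Z`. -/
def toModule (hX : X.IsChow) (hZ : Z.IsChow) : K4H67.QW.CorrModule (toQW hX) Z.CH where
  act {a c} := LinearMap.mk₂ k (fun (x : X.Corr a c) (z : Z.CH a) => Z.act x z)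
    (fun x y z => (hZ.linear.left a c z).map_add x y)
    (fun r x z => (hZ.linear.left a c z).map_smul r x)
    (fun x z z' => (hZ.linear.right a c x).map_add z z')
    (fun r x z => (hZ.linear.right a c x).map_smul r z)
  act_comp x y z := hZ.act_comp x y z
  act_diag a z := hZ.act_diag a z

end

end Pool.Agent.K4H85.CQ
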