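import Pool.Agent.K4H67.QW.Acts

/-!
# The limit of the ratios, with values in the extended natural numbers
-/

set_option autoImplicit false

namespace Pool.Agent.K4H85.CQ

open Filter Topology Module Pool.Agent.K4H67.QW

noncomputable section

universe u w

/-- `r m / b m` tends to the limit `κ` in `{0, 1, 2, …, ∞}`; if `κ` is finite then all `r m` are
finite. -/
def HasRatio (r : ℕ → Cardinal.{w}) (b : ℕ → ℕ) (κ : ℕ∞) : Prop :=
  (κ = ⊤ → ∀ n : ℕ, ∀ᶠ m in atTop, ((n * b m : ℕ) : Cardinal) ≤ r m) ∧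
  ∀ n : ℕ, κ = n → (∀ m, r m < Cardinal.aleph0) ∧
    Tendsto (fun m => (Cardinal.toNat (r m) : ℝ) / b m) atTop (𝓝 n)

/-- The dimension `r` is finite and at most `x`. -/
def AtMost (r : Cardinal.{w}) (x : ℝ) : Prop := r < Cardinal.aleph0 ∧ (Cardinal.toNat r : ℝ) ≤ x

variable {k : Type} [Field k] {X : ChowPowers.{u} k}

theorem atMost_iff {V : Type w} [AddCommGroup V] [Module k V] (x : ℝ) :
    AtMost (Module.rank k V) x ↔ FiniteDimensional k V ∧ (finrank k V : ℝ) ≤ x := by
  unfold AtMost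
  rw [Module.rank_lt_aleph0_iff]
  rfl

/-- The law for a stable family of subspaces of a module over the correspondences. -/
theorem law [CharZero k] (hX : X.IsChow) (hK : X.Nilpotence) (hN : X.NumIsHom)
    {H : ℕ → Type w} [∀ m, AddCommGroup (H m)] [∀ m, Module k (H m)] (M : CorrModule X H)
    {F : ∀ m, Submodule k (H m)} (hF : M.IsStable F) :
    ∃ κ : ℕ∞, HasRatio (fun m => Module.rank k (F m)) X.classDim κ ∧
      (κ = 0 ↔ ∀ m, F m = ⊥) ∧
      (κ = 0 ↔ ∃ ε : ℝ, 0 < ε ∧
        ∃ᶠ m in atTop, AtMost (Module.rank k (F m)) ((1 - ε) * X.classDim m)) ∧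
      (κ ≠ 0 → ∃ c : ℕ, ∀ᶠ m in atTop, ((Fintype.card X.ι ^ m : ℕ) : Cardinal) ≤
        ((c * (m + 1) ^ c : ℕ) : Cardinal) * Module.rank k (F m)) := by
  have hbot : (∃ ε : ℝ, 0 < ε ∧ ∃ᶠ m in atTop, FiniteDimensional k (F m) ∧
      (finrank k (F m) : ℝ) ≤ (1 - ε) * X.classDim m) ↔ ∀ m, F m = ⊥ := by
    constructor
    · rintro ⟨ε, hε, h⟩
      exact bot_of_frequently hX hK hN M hF hε h
    · intro h
      refine ⟨1, one_pos, Filter.Frequently.of_forall fun m => ?_⟩
      rw [h m]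
      refine ⟨inferInstance, ?_⟩
      rw [finrank_bot, Nat.cast_zero, sub_self, zero_mul]
  simp only [atMost_iff]
  rw [hbot]
  have hexp : (¬ ∀ m, F m = ⊥) → ∃ c : ℕ, ∀ᶠ m in atTop,
      ((Fintype.card X.ι ^ m : ℕ) : Cardinal) ≤
        ((c * (m + 1) ^ c : ℕ) : Cardinal) * Module.rank k (F m) := by
    intro h
    push Not at h
    obtain ⟨m₀, hm₀⟩ := h
    exact exp_of_ne_bot hX hK hN M hF hm₀
  rcases quant hX hK hN M hF with h1 | ⟨h1, K, h2, h3⟩
  · have hne : ¬ ∀ m, F m = ⊥ := by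
      intro h
      obtain ⟨m, hm⟩ := (h1 1).exists
      rw [h m, rank_bot, one_mul, ← Nat.cast_zero, Nat.cast_le] at hm
      have := classDim_pos hX m
      omega
    refine ⟨⊤, ⟨fun _ => h1, fun n hn => absurd hn (ENat.top_ne_natCast n)⟩, ?_, ?_, fun _ => hexp hne⟩
    · exact ⟨fun h => absurd h (by simp), fun h => absurd h hne⟩
    · exact ⟨fun h => absurd h (by simp), fun h => absurd h hne⟩
  · have hiff : ((K : ℕ∞) = 0) ↔ ∀ m, F m = ⊥ := by
      constructor
      · intro h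
        exact h3 (by exact_mod_cast h)
      · intro h
        have h4 : Tendsto (fun _ : ℕ => (0 : ℝ)) atTop (𝓝 K) := by
          refine h2.congr fun m => ?_
          rw [h m, finrank_bot, Nat.cast_zero, zero_div]
        have h5 : (K : ℝ) = 0 := tendsto_nhds_unique h4 tendsto_const_nhds
        have h6 : K = 0 := by exact_mod_cast h5
        rw [h6]
        rfl
    refine ⟨K, ⟨fun h => absurd h (ENat.natCast_ne_top K), fun n hn => ?_⟩, hiff, hiff, fun h => ?_⟩
    · have h4 : K = n := by exact_mod_cast hn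
      subst h4
      refine ⟨fun m => ?_, ?_⟩
      · have := h1 m
        exact Module.rank_lt_aleph0 k (F m)
      · exact h2
    · exact hexp fun h' => h (hiff.2 h')

end

end Pool.Agent.K4H85.CQ
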